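import Pool.Agent.N882.UE.OrdTh
import Pool.Agent.N882.UE.ShortFrac

/-!
# MP_db07cb_ag: ordinary primes and bilinear equations

`T : Realizations F` are the data of the cohomology with compact supports `H v n X = H^n_c(X, ℚ_p)` of the
schemes `X` over the number field `F`, as a representation of the Galois group of `F_v`, for the finite places
`v ∣ p` of `F`. `IsRealization T` lists the known properties which are used. `FT True X`: `X` is a variety
(separated and of finite type over `F`). `OrdAt T v X`: for all `n` the Newton polygon (slopes of the Frobenius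
of `D_pst`) and the Hodge polygon of `H v n X` coincide. `IH v n X` is intersection cohomology. For smooth
projective `X` and all but finitely many `v` these are the polygons of the problem (Katz–Messing, Faltings).

`Common (OrdAt T) K`: for every finite list of schemes in the class `K` there are infinitely many places `v`
such that all members of the list are ordinary at `v`.

`bilS t` is the closed subscheme of the affine space given by the bilinear equations
`bform t l = ∑ t_ijl x_i y_j = 0`, `sysS F E` is given by `few F E_l = ∑_{(i, j) ∈ E_l} x_i y_j = 0`, `opnS f` is the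
principal open subscheme `f_1 ⋯ f_r ≠ 0` of the affine space, `hypS t` is the smooth affine cubic hypersurface
`∑ t_ijl x_i y_j z_l = 1`, and `tripS F H` is `∑_{(i, j, l) ∈ H} x_i y_j z_l = 1`.
-/

set_option autoImplicit false

open CategoryTheory AlgebraicGeometry Pool.Agent.Y116.UV Pool.Agent.N882.UE Pool.Agent.Q282.UK
  Pool.Agent.Q282.UZ Pool.Agent.Z125.UN

namespace Pool.Agent.Results.MP_db07cb_ag.BilinearEquations

variable {F : Type} [Field F]

/-- Q1: for every proper variety `X` and every `n` there are infinitely many places `v` such that the Newton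
polygon and the Hodge polygon of `IH^n(X)` coincide. -/
def Question (T : Realizations F) (IH : ∀ v, ℤ → Sch F → T.C v) : Prop :=
  ∀ X : Sch F, FT True X → IsProper X.hom → ∀ n : ℤ,
    {v | (T.slopes v).Ordinary (IH v n X)}.Infinite

/-- Varieties of dimension at most `d`. -/
def AllDim (d : ℕ) (X : Sch F) : Prop := FT True X ∧ topologicalKrullDim X.left ≤ d

/-- Smooth varieties of dimension at most `d`. -/
def SmoothDim (d : ℕ) (X : Sch F) : Prop :=
  FT True X ∧ Smooth X.hom ∧ topologicalKrullDim X.left ≤ d

/-- Smooth proper varieties of dimension at most `d`. -/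
def ProperDim (d : ℕ) (X : Sch F) : Prop :=
  Smooth X.hom ∧ IsProper X.hom ∧ topologicalKrullDim X.left ≤ d

/-- Systems of bilinear equations with at most `m` variables `x` or at most `m` variables `y`. -/
def Variables (m : ℕ) (X : Sch F) : Prop :=
  ∃ (a b c : ℕ) (t : Fin a → Fin b → Fin c → F), (a ≤ m ∨ b ≤ m) ∧ X = bilS t

/-- Systems of at most `m` bilinear equations. -/
def Equations (m : ℕ) (X : Sch F) : Prop :=
  ∃ (a b c : ℕ) (t : Fin a → Fin b → Fin c → F), c ≤ m ∧ X = bilS t

/-- The hypersurfaces `t(x, y, z) = 1` with a block of at most `m` variables. -/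
def Hypersurfaces (m : ℕ) (X : Sch F) : Prop :=
  ∃ (a b c : ℕ) (t : Fin a → Fin b → Fin c → F), (a ≤ m ∨ b ≤ m ∨ c ≤ m) ∧ X = hypS t

/-- The principal opens defined by at most `m` bilinear forms. -/
def Opens (m : ℕ) (X : Sch F) : Prop :=
  ∃ (a b r : ℕ) (t : Fin a → Fin b → Fin r → F), r ≤ m ∧ X = opnS (bform t)

/-- All systems of bilinear equations. -/
def System (X : Sch F) : Prop := ∃ (a b c : ℕ) (t : Fin a → Fin b → Fin c → F), X = bilS t

/-- Systems of bilinear equations with coefficients `1` and at most three terms in every equation. -/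
def ThreeTermSystem (X : Sch F) : Prop :=
  ∃ (a b c : ℕ) (E : Fin c → Finset (Fin a × Fin b)), (∀ l, (E l).card ≤ 3) ∧ X = sysS F E

/-- Principal opens defined by bilinear forms with coefficients `1` and at most three terms. -/
def ThreeTermOpen (X : Sch F) : Prop :=
  ∃ (a b r : ℕ) (E : Fin r → Finset (Fin a × Fin b)), (∀ l, (E l).card ≤ 3) ∧
    X = opnS fun l => few F (E l)

/-- The hypersurfaces `∑_{(i, j, l) ∈ H} x_i y_j z_l = 1`. -/
def TripleSet (X : Sch F) : Prop :=
  ∃ (a b c : ℕ) (H : Finset (Fin a × Fin b × Fin c)), X = tripS F H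

/-- **Hironaka's theorem**, in the form of a principle of dévissage: a property of varieties over `F` with
the closure properties `Bnd` (in particular for closed-open decompositions) which is true for the smooth
proper varieties of dimension at most `d` is true for all varieties of dimension at most `d`. -/
def Hironaka (F : Type) [Field F] : Prop :=
  ∀ P : Sch F → Prop, Bnd True P → ∀ d : ℕ, (∀ X : Sch F, ProperDim d X → P X) →
    ∀ X : Sch F, AllDim d X → P X

/-- The known relations of intersection cohomology and of cohomology: intersection cohomology of a proper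
variety `X` is a direct factor of the cohomology of a resolution of singularities (decomposition theorem),
and, by products of varieties and the formula of Künneth, Q1 implies the existence of infinitely many common
ordinary places for finitely many smooth proper varieties and all degrees. -/
structure IsIntersection (T : Realizations F) (IH : ∀ v, ℤ → Sch F → T.C v) : Prop where
  factor : ∀ X : Sch F, FT True X → IsProper X.hom → ∃ Y : Sch F, Smooth Y.hom ∧ IsProper Y.hom ∧
    ∀ v n, ∃ (s : IH v n X ⟶ T.H v n Y) (r : T.H v n Y ⟶ IH v n X), s ≫ r = 𝟙 _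
  common : Question T IH → ∀ d, Common (OrdAt T) (ProperDim d)

/-- **Theorem.** Let `F` be a number field.
(1) For every `d` the following are equivalent, where common ordinary places means that for every finite
list of members of the class there are infinitely many places at which all of them are ordinary: common
ordinary places for the smooth proper varieties of dimension at most `d`; for all varieties of dimension at
most `d`; for the smooth ones; for the systems of bilinear equations with at most `d + 2` variables in one of
the two blocks; for the systems of at most `d + 2` bilinear equations; for the smooth hypersurfaces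
`t(x, y, z) = 1` with a block of at most `d + 2` variables; for the principal opens of affine spaces defined
by at most `d + 2` bilinear forms.
(2) Q1 over `F` is equivalent to the existence of common ordinary places for all varieties of dimension at
most `d`, all `d`, and to the existence of common ordinary places for the systems of bilinear equations.
(3) If `F = ℚ` (every element is a quotient of integers), Q1 over `F` is equivalent to the existence of common
ordinary places for the systems of bilinear equations with coefficients `1` and at most three terms in every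
equation; for the principal opens defined by bilinear forms of this kind; for the smooth hypersurfaces
`∑_{(i, j, l) ∈ H} x_i y_j z_l = 1` of the finite sets `H`. -/
theorem result [CharZero F] (T : Realizations F) (hT : IsRealization T)
    (IH : ∀ v, ℤ → Sch F → T.C v) (hIH : IsIntersection T IH) (resolution : Hironaka F) :
    (∀ d : ℕ, [Common (OrdAt T) (ProperDim d), Common (OrdAt T) (AllDim d),
      Common (OrdAt T) (SmoothDim d), Common (OrdAt T) (Variables (d + 2)),
      Common (OrdAt T) (Equations (d + 2)), Common (OrdAt T) (Hypersurfaces (d + 2)),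
      Common (OrdAt T) (Opens (d + 2))].TFAE) ∧
    [Question T IH, (∀ d : ℕ, Common (OrdAt T) (AllDim d)), Common (OrdAt T) (FT True),
      Common (OrdAt T) System].TFAE ∧
    (Pool.Agent.Q193.LT.Frac F → [Question T IH, Common (OrdAt T) ThreeTermSystem,
      Common (OrdAt T) ThreeTermOpen, Common (OrdAt T) TripleSet].TFAE) := by
  have hB : ∀ 𝓕 : Filter T.Place, Bnd True fun X => ∀ᶠ v in 𝓕, OrdAt T v X :=
    fun 𝓕 => bnd_filter 𝓕 (bnd_ord hT)
  have hC := fun 𝓕 => clo2_of_bnd (hB 𝓕)
  have key : ∀ d : ℕ, [Common (OrdAt T) (ProperDim d), Common (OrdAt T) (AllDim d),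
      Common (OrdAt T) (SmoothDim d), Common (OrdAt T) (Variables (d + 2)),
      Common (OrdAt T) (Equations (d + 2)), Common (OrdAt T) (Hypersurfaces (d + 2)),
      Common (OrdAt T) (Opens (d + 2))].TFAE := by
    intro d
    have hall : ∀ 𝓕 : Filter T.Place, (∀ X : Sch F, AllDim d X → ∀ᶠ v in 𝓕, OrdAt T v X) ↔
        ∀ X : Sch F, FT True X → topologicalKrullDim X.left ≤ d → ∀ᶠ v in 𝓕, OrdAt T v X :=
      fun 𝓕 => ⟨fun h X h1 h2 => h X ⟨h1, h2⟩, fun h X h1 => h X h1.1 h1.2⟩
    tfae_have 1 ↔ 2 := by
      refine common_iff fun 𝓕 => ⟨fun h => resolution _ (hB 𝓕) d h, fun h X hX => ?_⟩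
      have h1 := hX.1
      have h2 := hX.2.1
      exact h X ⟨⟨inferInstance, inferInstance, fun _ => inferInstance⟩, hX.2.2⟩
    tfae_have 2 ↔ 3 := by
      refine common_iff fun 𝓕 => (hall 𝓕).trans (((gen_tfae (hB 𝓕) d).out 0 1).trans ?_)
      exact ⟨fun h X h1 => h X h1.1 h1.2.1 h1.2.2, fun h X h1 h2 h3 => h X ⟨h1, h2, h3⟩⟩
    tfae_have 2 ↔ 4 := by
      refine common_iff fun 𝓕 => (hall 𝓕).trans (((gen_tfae (hB 𝓕) d).out 0 2).trans ?_)
      constructor
      · rintro h X ⟨a, b, c, t, hm, rfl⟩
        exact h a b c t hm
      · exact fun h a b c t hm => h _ ⟨a, b, c, t, hm, rfl⟩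
    tfae_have 2 ↔ 5 := by
      refine common_iff fun 𝓕 => (hall 𝓕).trans (((gen_tfae (hB 𝓕) d).out 0 3).trans ?_)
      constructor
      · rintro h X ⟨a, b, c, t, hm, rfl⟩
        exact h a b c t hm
      · exact fun h a b c t hm => h _ ⟨a, b, c, t, hm, rfl⟩
    tfae_have 2 ↔ 6 := by
      refine common_iff fun 𝓕 => (hall 𝓕).trans (((gen_tfae (hB 𝓕) d).out 0 4).trans ?_)
      constructor
      · rintro h X ⟨a, b, c, t, hm, rfl⟩
        exact h a b c t hm
      · exact fun h a b c t hm => h _ ⟨a, b, c, t, hm, rfl⟩
    tfae_have 2 ↔ 7 := by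
      refine common_iff fun 𝓕 => (hall 𝓕).trans (((opens_dim (hB 𝓕) d).out 0 2).trans ?_)
      constructor
      · rintro h X ⟨a, b, c, t, hm, rfl⟩
        exact h a b c t hm
      · exact fun h a b c t hm => h _ ⟨a, b, c, t, hm, rfl⟩
    tfae_finish
  -- systems are universal
  have hsys : Common (OrdAt T) System → Common (OrdAt T) (FT True) := by
    refine common_of fun 𝓕 h X hX => ?_
    exact clo_universal (S := Set.univ) (hC 𝓕).toClo trivial trivial
      (fun a b c t _ => h _ ⟨a, b, c, t, rfl⟩) presents_univ X hX
  have hquest : Common (OrdAt T) (FT True) → Question T IH := by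
    intro h X hX hp n
    obtain ⟨Y, h1, h2, h3⟩ := hIH.factor X hX hp
    have h4 := h [Y] (fun Z hZ => by
      rw [List.mem_singleton.mp hZ]
      exact ⟨inferInstance, inferInstance, fun _ => inferInstance⟩)
    refine h4.mono fun v hv => ?_
    obtain ⟨s, r, hsr⟩ := h3 v n
    have hm : Mono s := mono_of_mono_fac hsr
    exact (serre_ordinary (T.slopes v)).of_mono s (hv Y (List.mem_singleton.mpr rfl) n)
  have hdim : (∀ d : ℕ, Common (OrdAt T) (AllDim d)) → Common (OrdAt T) System := by
    intro h L hL
    have h1 : ∃ d : ℕ, ∀ X ∈ L, Variables (d + 2) X := by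
      clear h
      induction L with
      | nil => exact ⟨0, fun X hX => absurd hX List.not_mem_nil⟩
      | cons X L ih =>
        obtain ⟨d, hd⟩ := ih fun Y hY => hL Y (List.mem_cons_of_mem _ hY)
        obtain ⟨a, b, c, t, rfl⟩ := hL X List.mem_cons_self
        refine ⟨d + a, fun Y hY => ?_⟩
        rcases List.mem_cons.mp hY with rfl | hY
        · exact ⟨a, b, c, t, Or.inl (by omega), rfl⟩
        · obtain ⟨a', b', c', t', hm, rfl⟩ := hd Y hY
          exact ⟨a', b', c', t', by omega, rfl⟩
    obtain ⟨d, hd⟩ := h1
    have h2 : Common (OrdAt T) (Variables (d + 2)) := ((key d).out 1 3).mp (h d)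
    exact h2 L hd
  have two : [Question T IH, (∀ d : ℕ, Common (OrdAt T) (AllDim d)), Common (OrdAt T) (FT True),
      Common (OrdAt T) System].TFAE := by
    tfae_have 1 → 2 := fun h d => ((key d).out 0 1).mp (hIH.common h d)
    tfae_have 2 → 4 := hdim
    tfae_have 4 → 3 := hsys
    tfae_have 3 → 1 := hquest
    tfae_finish
  refine ⟨key, two, fun hF => ?_⟩
  have h13 : Question T IH ↔ Common (OrdAt T) (FT True) := two.out 0 2
  have hS := short_frac hF
  tfae_have 1 ↔ 2 := by
    refine h13.trans (common_iff fun 𝓕 => (three_iff hS (hC 𝓕).toClo).trans ?_)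
    constructor
    · rintro h X ⟨a, b, c, E, hE, rfl⟩
      exact h a b c E hE
    · exact fun h a b c E hE => h _ ⟨a, b, c, E, hE, rfl⟩
  tfae_have 1 ↔ 3 := by
    refine h13.trans (common_iff fun 𝓕 => (opens_few hS (hC 𝓕)).trans ?_)
    constructor
    · rintro h X ⟨a, b, c, E, hE, rfl⟩
      exact h a b c E hE
    · exact fun h a b c E hE => h _ ⟨a, b, c, E, hE, rfl⟩
  tfae_have 1 ↔ 4 := by
    refine h13.trans (common_iff fun 𝓕 => ⟨?_, fun h X hX => ?_⟩)
    · rintro h X ⟨a, b, c, H, rfl⟩
      exact h _ (ft_aff True)
    · exact Pool.Agent.Q193.LT.universal_frac hF (hB 𝓕).toUni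
        (fun a b c H => h _ ⟨a, b, c, H, rfl⟩) X hX
  tfae_finish

end Pool.Agent.Results.MP_db07cb_ag.BilinearEquations
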