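import Pool.Agent.N397.HO.Summ

/-!
# Ordinary primes for the intersection cohomology of images of hyperkähler varieties

Let `F` be a number field and `Y` a smooth projective variety over `F` which is built from hyperkähler
varieties (irreducible symplectic varieties of any deformation type with `b_2 ≥ 3`, so K3 surfaces
too, and abelian surfaces) and varieties which are potentially ordinary at almost all places (e.g. of CM
type) by products, projective bundles, blow-ups and surjective images. Let `X_1, ..., X_r` be projective
varieties over `F`, with arbitrary singularities, which are images of `Y` (or of a part of `Y`): for
example finite quotients of products of hyperkähler varieties, contractions of hyperkähler varieties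
(singular symplectic varieties with a symplectic resolution), bases of fibrations of such
varieties, and all projective varieties which are dominated by products of K3 surfaces and abelian
surfaces.

**Theorem.** The maximal ideals `𝔭` of `𝓞_F` such that for all `X_j`, all `n` and all `ℓ` (not divisible
by `𝔭`) the Newton polygon of the Frobenius on `IH^n(X_j, ℚ_ℓ)` is the Hodge-Tate polygon have positive
lower density. In particular Q1 holds for all these `X`.

Proof. By the decomposition theorem `IH^n(X)` is a direct summand of `H^n(Y)`; the Newton polygons of
both parts lie on or above the Hodge polygons. If `H^n(Y)` is ordinary at `𝔭` then the sums of the
squares of the slopes show that both parts are ordinary. For the common ordinary places of several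
hyperkähler varieties see `MP_adc574_ag.HyperkaehlerVarieties`.
-/

set_option autoImplicit false

namespace Pool.Agent.Results.MP_db07cb_ag.ImagesOfHyperkaehler

open Pool.Agent.N397.HO Pool.Agent.W528.Ord NumberField IsDedekindDomain

/-- **Ordinary primes for the intersection cohomology of images of varieties built from hyperkähler
varieties.** Let `V` be a smooth projective variety over the number field `F` which is built from
hyperkähler varieties and potentially almost everywhere ordinary ones, and `X k` finitely many
projective varieties, with arbitrary singularities, whose intersection cohomology is a direct
summand of the cohomology of `V`. The places `v` at which all `IH^n(X k)` are ordinary have positive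
lower density. -/
theorem result {F : Type} [Field F] [NumberField F] {ℓ : ℕ} [Fact ℓ.Prime] (V : Fam (𝓞 F))
    (hV : Built ℓ V) {κ : Type} [Finite κ] (X : κ → IHSummands V) :
    0 < lowerDensity fun v : HeightOneSpectrum (𝓞 F) => ∀ k, (X k).OrdinaryAt v :=
  ih_main hV X

end Pool.Agent.Results.MP_db07cb_ag.ImagesOfHyperkaehler
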